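import Pool.Agent.H54.RH.Targets

/-!
# MP_def5ca_co, row K6 of the board `rhx_modules`: the check of orientability
-/

set_option autoImplicit false

namespace Pool.Agent.H40.RHX

open Pool.Agent.H54.RH

/-- a list filter over a range against a filter over `Fin n` -/
theorem len_filter {n : ℕ} (p : ℕ → Bool) (q : Fin n → Prop) [DecidablePred q]
    (h : ∀ t : Fin n, p t.val = true ↔ q t) :
    ((List.range n).filter p).length = (Finset.univ.filter q).card := by
  have h1 : ((List.range n).filter p).toFinset = (Finset.univ.filter q).map Fin.valEmbedding := by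
    ext x
    rw [List.mem_toFinset, List.mem_filter, List.mem_range, Finset.mem_map]
    constructor
    · rintro ⟨hx, hp⟩
      exact ⟨⟨x, hx⟩, Finset.mem_filter.2 ⟨Finset.mem_univ _, (h ⟨x, hx⟩).1 hp⟩, rfl⟩
    · rintro ⟨t, ht, rfl⟩
      exact ⟨t.2, (h t).2 (Finset.mem_filter.1 ht).2⟩
  rw [← List.toFinset_card_of_nodup (List.Nodup.filter _ List.nodup_range), h1, Finset.card_map]

theorem pf_K6 (h0 : T_K0) : T_K6 := by
  intro n m s hck
  refine ⟨fun h => s.testBit (cd h), ?_⟩
  intro h hh k l hk hl hsw
  obtain ⟨hlt, hdg, _, _, hcsw⟩ := h0 n h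
  have hm : m.testBit (cd h) = true := (Finset.mem_filter.1 hh).2
  have hm' : m.testBit (csw (cd h) k.val l.val) = true := by
    rw [← hcsw]
    exact (Finset.mem_filter.1 hsw).2
  have hc : cd h ∈ codes n m := by
    unfold codes
    rw [List.mem_filter, List.mem_range]
    exact ⟨hlt, hm⟩
  unfold ck6 at hck
  have h1 := List.all_eq_true.1 (List.all_eq_true.1 (List.all_eq_true.1 hck (cd h) hc) k.val
    (List.mem_range.2 k.2)) l.val (List.mem_range.2 l.2)
  have hk' : dg (cd h) k.val = 1 := by
    rw [hdg, hk]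
    rfl
  have hl' : dg (cd h) l.val ≠ 1 := by
    rw [hdg]
    intro hc
    exact hl (Fin.ext hc)
  have hb : cbt n (cd h) k.val l.val = Pool.Agent.H54.RH.btw h k l := by
    unfold cbt Pool.Agent.H54.RH.btw
    refine len_filter _ _ fun t => ?_
    simp only [Bool.and_eq_true, Bool.or_eq_true, beq_iff_eq, Nat.blt_eq, hdg, Fin.lt_def]
    refine and_congr ?_ Iff.rfl
    constructor
    · intro hc
      exact Fin.ext hc
    · intro hc
      rw [hc]
      rfl
  simp only [hk', Bool.or_eq_true, beq_iff_eq, hl', hm',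
    Bool.not_true, Bool.false_eq_true, or_false, false_or, bne_self_eq_false, hb] at h1
  beta_reduce
  rw [hcsw, Nat.odd_iff]
  constructor
  · intro hc
    rw [hc] at h1
    simpa using h1.symm
  · intro hc
    rw [hc] at h1
    simpa using h1

end Pool.Agent.H40.RHX
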